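import Mathlib

/-!
# The first Grigorchuk group

The rooted binary tree has vertex set `{0,1}^*`, modelled by `List Bool` (`0` is `false`,
`1` is `true`; the first letter of a word is the head of the list).
-/

set_option autoImplicit false

namespace Pool.Agent.Helper886.Grig

/-- `a (0 w) = 1 w`, `a (1 w) = 0 w`. -/
def aFun : List Bool → List Bool
  | [] => []
  | false :: w => true :: w
  | true :: w => false :: w

mutual

/-- `b (0 w) = 0 a(w)`, `b (1 w) = 1 c(w)`. -/
def bFun : List Bool → List Bool
  | [] => []
  | false :: w => false :: aFun w
  | true :: w => true :: cFun w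

/-- `c (0 w) = 0 a(w)`, `c (1 w) = 1 d(w)`. -/
def cFun : List Bool → List Bool
  | [] => []
  | false :: w => false :: aFun w
  | true :: w => true :: dFun w

/-- `d (0 w) = 0 w`, `d (1 w) = 1 b(w)`. -/
def dFun : List Bool → List Bool
  | [] => []
  | false :: w => false :: w
  | true :: w => true :: bFun w

end

theorem aFun_invol : Function.Involutive aFun := by
  intro w
  cases w with
  | nil => rfl
  | cons x w => cases x <;> rfl

theorem bcdFun_invol (w : List Bool) :
    bFun (bFun w) = w ∧ cFun (cFun w) = w ∧ dFun (dFun w) = w := by
  induction w with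
  | nil => simp [bFun, cFun, dFun]
  | cons x w ih =>
    obtain ⟨h1, h2, h3⟩ := ih
    cases x <;> simp [bFun, cFun, dFun, h1, h2, h3, aFun_invol w]

/-- The generator `a` as a permutation of the vertices of the tree. -/
def a : Equiv.Perm (List Bool) := Function.Involutive.toPerm aFun aFun_invol

/-- The generator `b` as a permutation of the vertices of the tree. -/
def b : Equiv.Perm (List Bool) :=
  Function.Involutive.toPerm bFun fun w => (bcdFun_invol w).1

/-- The generator `c` as a permutation of the vertices of the tree. -/
def c : Equiv.Perm (List Bool) :=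
  Function.Involutive.toPerm cFun fun w => (bcdFun_invol w).2.1

/-- The generator `d` as a permutation of the vertices of the tree. -/
def d : Equiv.Perm (List Bool) :=
  Function.Involutive.toPerm dFun fun w => (bcdFun_invol w).2.2

/-- The first Grigorchuk group, generated by `a`, `b`, `c`, `d`. -/
def Gam : Subgroup (Equiv.Perm (List Bool)) := Subgroup.closure {a, b, c, d}

/-- `g` below `0` and `h` below `1`, as a map: `0 w ↦ 0 g(w)`, `1 w ↦ 1 h(w)`. -/
def prFun (g h : List Bool → List Bool) : List Bool → List Bool
  | [] => []
  | false :: w => false :: g w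
  | true :: w => true :: h w

/-- The permutation `(g, h)` of the vertices: `0 w ↦ 0 g(w)`, `1 w ↦ 1 h(w)`. -/
def pr (g h : Equiv.Perm (List Bool)) : Equiv.Perm (List Bool) where
  toFun := prFun g h
  invFun := prFun g.symm h.symm
  left_inv w := by
    rcases w with _ | ⟨x, w⟩
    · rfl
    · cases x <;> simp [prFun]
  right_inv w := by
    rcases w with _ | ⟨x, w⟩
    · rfl
    · cases x <;> simp [prFun]

end Pool.Agent.Helper886.Grig
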