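import Pool.Agent.Helper886.Grig.Defs

/-!
# Calculus of sections
-/

set_option autoImplicit false

namespace Pool.Agent.Helper886.Grig

/-- The permutations of the vertex set. -/
abbrev G := Equiv.Perm (List Bool)

@[simp] theorem pr_nil (g h : G) : pr g h [] = [] := rfl
@[simp] theorem pr_false (g h : G) (w : List Bool) : pr g h (false :: w) = false :: g w := rfl
@[simp] theorem pr_true (g h : G) (w : List Bool) : pr g h (true :: w) = true :: h w := rfl

theorem ext_cons {g h : G} (h0 : g [] = h []) (h1 : ∀ w, g (false :: w) = h (false :: w))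
    (h2 : ∀ w, g (true :: w) = h (true :: w)) : g = h := by
  ext1 w
  rcases w with _ | ⟨x, w⟩
  · exact h0
  · cases x
    · exact h1 w
    · exact h2 w

@[simp] theorem a_nil : a [] = [] := rfl
@[simp] theorem a_false (w : List Bool) : a (false :: w) = true :: w := rfl
@[simp] theorem a_true (w : List Bool) : a (true :: w) = false :: w := rfl

@[simp] theorem b_nil : b [] = [] := rfl
@[simp] theorem b_false (w : List Bool) : b (false :: w) = false :: a w := rfl
@[simp] theorem b_true (w : List Bool) : b (true :: w) = true :: c w := rfl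
@[simp] theorem c_nil : c [] = [] := rfl
@[simp] theorem c_false (w : List Bool) : c (false :: w) = false :: a w := rfl
@[simp] theorem c_true (w : List Bool) : c (true :: w) = true :: d w := rfl
@[simp] theorem d_nil : d [] = [] := rfl
@[simp] theorem d_false (w : List Bool) : d (false :: w) = false :: w := rfl
@[simp] theorem d_true (w : List Bool) : d (true :: w) = true :: b w := rfl

theorem ap_inv (g : G) (x : List Bool) : g (g⁻¹ x) = x := by
  rw [← Equiv.Perm.mul_apply, mul_inv_cancel, Equiv.Perm.one_apply]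
theorem inv_ap (g : G) (x : List Bool) : g⁻¹ (g x) = x := by
  rw [← Equiv.Perm.mul_apply, inv_mul_cancel, Equiv.Perm.one_apply]

theorem b_eq : b = pr a c := ext_cons rfl (fun _ => rfl) (fun _ => rfl)
theorem c_eq : c = pr a d := ext_cons rfl (fun _ => rfl) (fun _ => rfl)
theorem d_eq : d = pr 1 b := ext_cons rfl (fun _ => rfl) (fun _ => rfl)

theorem pr_mul (g h g' h' : G) : pr g h * pr g' h' = pr (g * g') (h * h') :=
  ext_cons rfl (fun _ => rfl) (fun _ => rfl)

theorem pr_mul' (g h g' h' x : G) : pr g h * (pr g' h' * x) = pr (g * g') (h * h') * x := by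
  rw [← mul_assoc, pr_mul]

theorem pr_one : pr 1 1 = 1 := ext_cons rfl (fun _ => rfl) (fun _ => rfl)

theorem pr_inj {g h g' h' : G} : pr g h = pr g' h' ↔ g = g' ∧ h = h' := by
  constructor
  · intro e
    constructor
    · ext1 w
      have := congrArg (fun x : G => x (false :: w)) e
      simpa using this
    · ext1 w
      have := congrArg (fun x : G => x (true :: w)) e
      simpa using this
  · rintro ⟨rfl, rfl⟩
    rfl

theorem pr_inv (g h : G) : (pr g h)⁻¹ = pr g⁻¹ h⁻¹ := by
  rw [inv_eq_iff_mul_eq_one, pr_mul, mul_inv_cancel, mul_inv_cancel, pr_one]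

theorem pr_pow (g h : G) (n : ℕ) : pr g h ^ n = pr (g ^ n) (h ^ n) := by
  induction n with
  | zero => simp [pr_one]
  | succ n ih => rw [pow_succ, ih, pr_mul, ← pow_succ, ← pow_succ]

theorem a_pr (g h : G) : a * pr g h = pr h g * a :=
  ext_cons rfl (fun _ => rfl) (fun _ => rfl)

theorem a_pr' (g h x : G) : a * (pr g h * x) = pr h g * (a * x) := by
  rw [← mul_assoc, a_pr, mul_assoc]

theorem a_a : a * a = 1 := ext_cons rfl (fun _ => rfl) (fun _ => rfl)

theorem a_a' (x : G) : a * (a * x) = x := by rw [← mul_assoc, a_a, one_mul]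

theorem bcdFun_mul (w : List Bool) :
    bFun (cFun w) = dFun w ∧ cFun (bFun w) = dFun w ∧ cFun (dFun w) = bFun w ∧
      dFun (cFun w) = bFun w ∧ bFun (dFun w) = cFun w ∧ dFun (bFun w) = cFun w := by
  induction w with
  | nil => simp [bFun, cFun, dFun]
  | cons x w ih =>
    obtain ⟨h1, h2, h3, h4, h5, h6⟩ := ih
    cases x <;> simp [bFun, cFun, dFun, h1, h2, h3, h4, h5, h6, aFun_invol w]

theorem b_c : b * c = d := by ext1 w; exact (bcdFun_mul w).1
theorem c_b : c * b = d := by ext1 w; exact (bcdFun_mul w).2.1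
theorem c_d : c * d = b := by ext1 w; exact (bcdFun_mul w).2.2.1
theorem d_c : d * c = b := by ext1 w; exact (bcdFun_mul w).2.2.2.1
theorem b_d : b * d = c := by ext1 w; exact (bcdFun_mul w).2.2.2.2.1
theorem d_b : d * b = c := by ext1 w; exact (bcdFun_mul w).2.2.2.2.2
theorem b_b : b * b = 1 := by ext1 w; exact (bcdFun_invol w).1
theorem c_c : c * c = 1 := by ext1 w; exact (bcdFun_invol w).2.1
theorem d_d : d * d = 1 := by ext1 w; exact (bcdFun_invol w).2.2

theorem b_b' (x : G) : b * (b * x) = x := by rw [← mul_assoc, b_b, one_mul]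
theorem c_c' (x : G) : c * (c * x) = x := by rw [← mul_assoc, c_c, one_mul]
theorem d_d' (x : G) : d * (d * x) = x := by rw [← mul_assoc, d_d, one_mul]

theorem b_pr (g h : G) : b * pr g h = pr (a * g) (c * h) := by rw [b_eq, pr_mul]
theorem c_pr (g h : G) : c * pr g h = pr (a * g) (d * h) := by rw [c_eq, pr_mul]
theorem d_pr (g h : G) : d * pr g h = pr g (b * h) := by rw [d_eq, pr_mul, one_mul]
theorem pr_b (g h : G) : pr g h * b = pr (g * a) (h * c) := by rw [b_eq, pr_mul]
theorem pr_c (g h : G) : pr g h * c = pr (g * a) (h * d) := by rw [c_eq, pr_mul]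
theorem pr_d (g h : G) : pr g h * d = pr g (h * b) := by rw [d_eq, pr_mul, mul_one]
theorem b_pr' (g h x : G) : b * (pr g h * x) = pr (a * g) (c * h) * x := by
  rw [← mul_assoc, b_pr]
theorem c_pr' (g h x : G) : c * (pr g h * x) = pr (a * g) (d * h) * x := by
  rw [← mul_assoc, c_pr]
theorem d_pr' (g h x : G) : d * (pr g h * x) = pr g (b * h) * x := by
  rw [← mul_assoc, d_pr]
theorem pr_b' (g h x : G) : pr g h * (b * x) = pr (g * a) (h * c) * x := by
  rw [← mul_assoc, pr_b]
theorem pr_c' (g h x : G) : pr g h * (c * x) = pr (g * a) (h * d) * x := by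
  rw [← mul_assoc, pr_c]
theorem pr_d' (g h x : G) : pr g h * (d * x) = pr g (h * b) * x := by
  rw [← mul_assoc, pr_d]

theorem a_inv : a⁻¹ = a := inv_eq_of_mul_eq_one_right a_a
theorem b_inv : b⁻¹ = b := inv_eq_of_mul_eq_one_right b_b
theorem c_inv : c⁻¹ = c := inv_eq_of_mul_eq_one_right c_c
theorem d_inv : d⁻¹ = d := inv_eq_of_mul_eq_one_right d_d

/-- `a d a = (b, 1)` -/
theorem ada : a * (d * a) = pr b 1 := by rw [d_eq, ← mul_assoc, a_pr, mul_assoc, a_a, mul_one]
theorem aba : a * (b * a) = pr c a := by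
  nth_rewrite 1 [b_eq]
  rw [← mul_assoc, a_pr, mul_assoc, a_a, mul_one]
theorem aca : a * (c * a) = pr d a := by
  nth_rewrite 1 [c_eq]
  rw [← mul_assoc, a_pr, mul_assoc, a_a, mul_one]

end Pool.Agent.Helper886.Grig
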